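import Pool.Agent.H41.AUG.Stmts

set_option autoImplicit false

/-!
# The augmentation lemma from its parts
-/

namespace Pool.Agent.H102.AUG

open Pool.Agent.H41.AUG

/-- forced rows, for `δ ≥ 2` -/
def FORCE2 : Prop := ∀ (n δ : ℕ) (A : Finset (Cell n)) (f : Equiv.Perm (Fin n)), 2 ≤ δ →
  gr f ⊆ A → RowGe A δ → ColGe A δ → ∀ Φ : Finset (Fin n), Φ.Nonempty →
  (∀ s ∈ Φ, ∀ g : Equiv.Perm (Fin n), gr g ⊆ A → g s = f s) → Φ.card + 2 * δ ≤ n

/-- the augmentation lemma, for `x + 4 ≤ n` -/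
def S_AUG4 : Prop := ∀ (n m x : ℕ) (ι : Type) [Fintype ι] [DecidableEq ι]
  (f : ι → Equiv.Perm (Fin n)) (A : ι → Finset (Cell n)) (y : ι → ℕ),
  Fintype.card ι = x → x + 4 ≤ n → 5 * x ≤ 3 * n + 1 →
  (∀ u, gr (f u) ⊆ A u) → (∀ u, RowGe (A u) (n + 1 - y u)) → (∀ u, ColGe (A u) (n + 1 - y u)) →
  (∀ u, 1 ≤ y u) → DefLe (unc f) (m + 1) → (∃ Z, Tight (unc f) (m + 1) Z) →
  (2 * (∑ u, (min x (2 * y u - n) : ℕ) : ℕ) : ℤ) < (2 * (n : ℤ) - 3 * x) * (n - 3) →
  ∃ (u : ι) (g : Equiv.Perm (Fin n)), gr g ⊆ A u ∧ DefLe (unc (Function.update f u g)) m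

variable {n : ℕ}

theorem mem_nbr {U : Finset (Cell n)} {Z : Finset (Fin n)} {c : Fin n} :
    c ∈ nbr U Z ↔ ∃ s ∈ Z, (s, c) ∈ U := by simp [nbr]

theorem mem_tr {U : Finset (Cell n)} {s c : Fin n} : (c, s) ∈ tr U ↔ (s, c) ∈ U := by
  unfold tr
  rw [Finset.mem_image]
  constructor
  · rintro ⟨⟨a, b⟩, h, h2⟩
    simp only [Prod.swap_prod_mk, Prod.mk.injEq] at h2
    obtain ⟨rfl, rfl⟩ := h2
    exact h
  · intro h
    exact ⟨(s, c), h, rfl⟩

theorem mem_tr' {U : Finset (Cell n)} {p : Cell n} : p ∈ tr U ↔ (p.2, p.1) ∈ U := by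
  obtain ⟨c, s⟩ := p
  exact mem_tr

theorem mem_gr {f : Equiv.Perm (Fin n)} {p : Cell n} : p ∈ gr f ↔ f p.1 = p.2 := by
  unfold gr
  rw [Finset.mem_image]
  constructor
  · rintro ⟨i, -, rfl⟩; rfl
  · intro h
    exact ⟨p.1, Finset.mem_univ _, by rw [h]⟩

theorem mem_unc {ι : Type} [Fintype ι] {f : ι → Equiv.Perm (Fin n)} {p : Cell n} :
    p ∈ unc f ↔ ∀ u, f u p.1 ≠ p.2 := by simp [unc]

theorem nbr_mono {U V : Finset (Cell n)} (h : U ⊆ V) (Z : Finset (Fin n)) : nbr U Z ⊆ nbr V Z := by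
  intro c hc
  obtain ⟨s, hs, hsc⟩ := mem_nbr.1 hc
  exact mem_nbr.2 ⟨s, hs, h hsc⟩

theorem defLe_mono {U V : Finset (Cell n)} {m : ℕ} (h : U ⊆ V) (hU : DefLe U m) : DefLe V m := by
  intro Z
  have h1 := hU Z
  have h2 := Finset.card_le_card (nbr_mono h Z)
  omega

theorem tr_sdiff (U V : Finset (Cell n)) : tr (U \ V) = tr U \ tr V := by
  ext p
  rw [Finset.mem_sdiff, mem_tr', mem_tr', mem_tr', Finset.mem_sdiff]

theorem tr_gr (g : Equiv.Perm (Fin n)) : tr (gr g) = gr g⁻¹ := by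
  ext p
  rw [mem_tr', mem_gr, mem_gr]
  constructor
  · intro h
    rw [Equiv.Perm.inv_eq_iff_eq]
    exact h.symm
  · intro h
    rw [Equiv.Perm.inv_eq_iff_eq] at h
    exact h.symm

theorem card_tr (U : Finset (Cell n)) : (tr U).card = U.card := by
  unfold tr
  exact Finset.card_image_of_injective _ Prod.swap_injective

theorem isMatch_tr {M : Finset (Cell n)} (h : IsMatch M) : IsMatch (tr M) := by
  constructor
  · intro p hp q hq hpq
    have h1 := h.2 _ (mem_tr'.1 hp) _ (mem_tr'.1 hq) hpq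
    simp only [Prod.mk.injEq] at h1
    exact Prod.ext h1.2 h1.1
  · intro p hp q hq hpq
    have h1 := h.1 _ (mem_tr'.1 hp) _ (mem_tr'.1 hq) hpq
    simp only [Prod.mk.injEq] at h1
    exact Prod.ext h1.2 h1.1

theorem rowGe_unc {ι : Type} [Fintype ι] [DecidableEq ι] (f : ι → Equiv.Perm (Fin n)) :
    RowGe (unc f) (n - Fintype.card ι) := by
  intro s
  set R : Finset (Fin n) := Finset.univ \ (Finset.univ.image fun u => f u s) with hR
  have h1 : n - Fintype.card ι ≤ R.card := by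
    have h2 : (Finset.univ.image fun u => f u s).card ≤ Fintype.card ι := by
      have := Finset.card_image_le (s := (Finset.univ : Finset ι)) (f := fun u => f u s)
      simpa using this
    rw [hR, Finset.card_sdiff_of_subset (Finset.subset_univ _), Finset.card_univ, Fintype.card_fin]
    omega
  refine h1.trans (Finset.card_le_card_of_injOn (fun c => (s, c)) ?_ ?_)
  · intro c hc
    have hc' : c ∈ R := hc
    rw [hR, Finset.mem_sdiff, Finset.mem_image] at hc'
    refine Finset.mem_coe.2 (Finset.mem_filter.2 ⟨mem_unc.2 fun u hu => ?_, rfl⟩)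
    exact hc'.2 ⟨u, Finset.mem_univ _, hu⟩
  · intro c _ c' _ h
    exact (Prod.mk.inj h).2

theorem colGe_unc {ι : Type} [Fintype ι] [DecidableEq ι] (f : ι → Equiv.Perm (Fin n)) :
    ColGe (unc f) (n - Fintype.card ι) := by
  intro c
  set R : Finset (Fin n) := Finset.univ \ (Finset.univ.image fun u => (f u)⁻¹ c) with hR
  have h1 : n - Fintype.card ι ≤ R.card := by
    have h2 : (Finset.univ.image fun u => (f u)⁻¹ c).card ≤ Fintype.card ι := by
      have := Finset.card_image_le (s := (Finset.univ : Finset ι)) (f := fun u => (f u)⁻¹ c)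
      simpa using this
    rw [hR, Finset.card_sdiff_of_subset (Finset.subset_univ _), Finset.card_univ, Fintype.card_fin]
    omega
  refine h1.trans (Finset.card_le_card_of_injOn (fun s => (s, c)) ?_ ?_)
  · intro s hs
    have hs' : s ∈ R := hs
    rw [hR, Finset.mem_sdiff, Finset.mem_image] at hs'
    refine Finset.mem_coe.2 (Finset.mem_filter.2 ⟨mem_unc.2 fun u hu => ?_, rfl⟩)
    refine hs'.2 ⟨u, Finset.mem_univ _, ?_⟩
    rw [Equiv.Perm.inv_eq_iff_eq]
    exact hu.symm
  · intro s _ s' _ h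
    exact (Prod.mk.inj h).1

theorem rowGe_tr {U : Finset (Cell n)} {d : ℕ} (h : ColGe U d) : RowGe (tr U) d := by
  intro s
  refine (h s).trans (Finset.card_le_card_of_injOn Prod.swap ?_ ?_)
  · intro p hp
    have hp' := Finset.mem_filter.1 (Finset.mem_coe.1 hp)
    refine Finset.mem_coe.2 (Finset.mem_filter.2 ⟨?_, hp'.2⟩)
    exact mem_tr'.2 hp'.1
  · intro p _ q _ hpq
    exact Prod.swap_injective hpq

theorem rowGe_sdiff {A M : Finset (Cell n)} {y : ℕ} (h : RowGe A (n + 1 - y)) (hM : IsMatch M) :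
    RowGe (A \ M) (n - y) := by
  intro s
  have h1 := h s
  have h2 : (M.filter fun p => p.1 = s).card ≤ 1 := by
    rw [Finset.card_le_one]
    intro p hp q hq
    rw [Finset.mem_filter] at hp hq
    exact hM.1 p hp.1 q hq.1 (hp.2.trans hq.2.symm)
  have h3 : (A.filter fun p => p.1 = s) ⊆
      ((A \ M).filter fun p => p.1 = s) ∪ (M.filter fun p => p.1 = s) := by
    intro p hp
    rw [Finset.mem_filter] at hp
    rw [Finset.mem_union, Finset.mem_filter, Finset.mem_filter, Finset.mem_sdiff]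
    by_cases hm : p ∈ M
    · exact Or.inr ⟨hm, hp.2⟩
    · exact Or.inl ⟨⟨hp.1, hm⟩, hp.2⟩
  have h4 := (Finset.card_le_card h3).trans (Finset.card_union_le _ _)
  omega

theorem colGe_sdiff {A M : Finset (Cell n)} {y : ℕ} (h : ColGe A (n + 1 - y)) (hM : IsMatch M) :
    ColGe (A \ M) (n - y) := by
  intro s
  have h1 := h s
  have h2 : (M.filter fun p => p.2 = s).card ≤ 1 := by
    rw [Finset.card_le_one]
    intro p hp q hq
    rw [Finset.mem_filter] at hp hq
    exact hM.2 p hp.1 q hq.1 (hp.2.trans hq.2.symm)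
  have h3 : (A.filter fun p => p.2 = s) ⊆
      ((A \ M).filter fun p => p.2 = s) ∪ (M.filter fun p => p.2 = s) := by
    intro p hp
    rw [Finset.mem_filter] at hp
    rw [Finset.mem_union, Finset.mem_filter, Finset.mem_filter, Finset.mem_sdiff]
    by_cases hm : p ∈ M
    · exact Or.inr ⟨hm, hp.2⟩
    · exact Or.inl ⟨⟨hp.1, hm⟩, hp.2⟩
  have h4 := (Finset.card_le_card h3).trans (Finset.card_union_le _ _)
  omega

open Classical in
/-- the counting part: there are many cells covered exactly once in robust position -/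
theorem many (ha : S_ADD) (hn : S_NONROB) (ho : S_ONCE) (har : S_ARITH)
    (n m x : ℕ) (ι : Type) [Fintype ι] [DecidableEq ι]
    (f : ι → Equiv.Perm (Fin n)) (hx : Fintype.card ι = x) (hxn : x + 4 ≤ n)
    (h5 : 5 * x ≤ 3 * n + 1) (M : Finset (Cell n)) (S T : Finset (Fin n))
    (hU : DefLe (unc f) (m + 1)) (hMU : M ⊆ unc f) (hM : IsMatch M) (hMc : n ≤ M.card + (m + 1))
    (hS : MinTight (unc f) (m + 1) S) (hUt : DefLe (tr (unc f)) (m + 1))
    (hT : MinTight (tr (unc f)) (m + 1) T) :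
    S.card ≤ x ∧ (2 * (n : ℤ) - 3 * x) * (n - 3) ≤ 2 * (((S.filter (Rob (unc f) M (m + 1))) ×ˢ
      (T.filter (Rob (tr (unc f)) (tr M) (m + 1)))).filter fun p =>
        (Finset.univ.filter fun u => f u p.1 = p.2).card = 1).card := by
  set U := unc f with hUdef
  set S' := S.filter (Rob U M (m + 1)) with hS'
  set T' := T.filter (Rob (tr U) (tr M) (m + 1)) with hT'
  set Bs := S.filter (fun s => ¬ Rob U M (m + 1) s) with hBs
  set Bt := T.filter (fun s => ¬ Rob (tr U) (tr M) (m + 1) s) with hBt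
  have hSc : S'.card + Bs.card = S.card := Finset.card_filter_add_card_filter_not _
  have hTc : T'.card + Bt.card = T.card := Finset.card_filter_add_card_filter_not _
  have hrow : RowGe U (n - x) := by rw [← hx]; exact rowGe_unc f
  have hcol : ColGe U (n - x) := by rw [← hx]; exact colGe_unc f
  have hrow' : RowGe (tr U) (n - x) := rowGe_tr hcol
  have hMU' : tr M ⊆ tr U := by
    intro p hp
    exact mem_tr'.2 (hMU (mem_tr'.1 hp))
  have n1 := hn n (m + 1) (n - x) U M S Bs (by omega) hU hS hMU hM hMc hrow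
    (Finset.filter_subset _ _) (fun s hs => (Finset.mem_filter.1 hs).2)
  have n2 := hn n (m + 1) (n - x) (tr U) (tr M) T Bt (by omega) hUt hT hMU' (isMatch_tr hM)
    (by rw [card_tr]; exact hMc) hrow'
    (Finset.filter_subset _ _) (fun s hs => (Finset.mem_filter.1 hs).2)
  -- no uncovered cell in `S × T`
  have hcov : ∀ s ∈ S, ∀ c ∈ T, (s, c) ∉ U := by
    intro s hs c hc hsc
    have h1 := ha n m U S T s c hU hS hT hs hc
    rw [Finset.insert_eq_of_mem hsc] at h1
    have h2 := h1 S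
    have h3 := hS.1
    unfold Tight at h3
    omega
  have hSt : S.card = (nbr U S).card + (m + 1) := hS.1
  have hTt : T.card = (nbr (tr U) T).card + (m + 1) := hT.1
  have hYc : ((nbr U S)ᶜ : Finset (Fin n)).card = n - (nbr U S).card := by
    rw [Finset.card_compl, Fintype.card_fin]
  have hYc2 : ((nbr (tr U) T)ᶜ : Finset (Fin n)).card = n - (nbr (tr U) T).card := by
    rw [Finset.card_compl, Fintype.card_fin]
  have hTY : T ⊆ (nbr U S)ᶜ := by
    intro c hc
    rw [Finset.mem_compl, mem_nbr]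
    rintro ⟨s, hs, hsc⟩
    exact hcov s hs c hc hsc
  have hSY : S ⊆ (nbr (tr U) T)ᶜ := by
    intro s hs
    rw [Finset.mem_compl, mem_nbr]
    rintro ⟨c, hc, hsc⟩
    exact hcov s hs c hc (mem_tr.1 hsc)
  have hnS : (nbr U S).card ≤ n := by
    simpa using Finset.card_le_univ (nbr U S)
  have hnT : (nbr (tr U) T).card ≤ n := by
    simpa using Finset.card_le_univ (nbr (tr U) T)
  have hTYc : T.card ≤ n - (nbr U S).card := by rw [← hYc]; exact Finset.card_le_card hTY
  have o1 := ho n ι f S' (nbr U S)ᶜ T' ((Finset.filter_subset _ _).trans hTY) (by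
    intro s hs c hc
    by_contra hcon
    push Not at hcon
    rw [Finset.mem_compl, mem_nbr] at hc
    exact hc ⟨s, (Finset.mem_filter.1 hs).1, mem_unc.2 hcon⟩)
  have o2 := ho n ι (fun u => (f u)⁻¹) T' (nbr (tr U) T)ᶜ S' ((Finset.filter_subset _ _).trans hSY) (by
    intro c hc s hs
    by_contra hcon
    push Not at hcon
    rw [Finset.mem_compl, mem_nbr] at hs
    refine hs ⟨c, (Finset.mem_filter.1 hc).1, mem_tr.2 (mem_unc.2 fun u hu => hcon u ?_)⟩
    rw [Equiv.Perm.inv_eq_iff_eq]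
    exact hu.symm)
  set P := (S' ×ˢ T').filter fun p => (Finset.univ.filter fun u => f u p.1 = p.2).card = 1 with hP
  have hPc : ((T' ×ˢ S').filter fun p =>
      (Finset.univ.filter fun u => (f u)⁻¹ p.1 = p.2).card = 1).card ≤ P.card := by
    refine Finset.card_le_card_of_injOn Prod.swap ?_ (fun p _ q _ h => Prod.swap_injective h)
    intro p hp
    have hp' := Finset.mem_filter.1 (Finset.mem_coe.1 hp)
    have hp1 := Finset.mem_product.1 hp'.1
    refine Finset.mem_coe.2 (Finset.mem_filter.2 ⟨Finset.mem_product.2 ⟨hp1.2, hp1.1⟩, ?_⟩)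
    rw [← hp'.2]
    congr 1
    ext u
    simp only [Finset.mem_filter, Finset.mem_univ, true_and, Prod.fst_swap, Prod.snd_swap]
    rw [Equiv.Perm.inv_eq_iff_eq]
    exact eq_comm
  rw [hx] at o1 o2
  have hne : ((n - x : ℕ) : ℤ) = (n : ℤ) - x := by
    rw [Nat.cast_sub (by omega)]
  have a1 := n1.1
  have a2 := n2.1
  have b1 := n1.2
  have b2 := n2.2
  rw [hne] at b1 b2
  rw [hYc, Nat.cast_sub hnS] at o1
  rw [hYc2, Nat.cast_sub hnT] at o2
  have hPc' : ((((T' ×ˢ S').filter fun p =>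
      (Finset.univ.filter fun u => (f u)⁻¹ p.1 = p.2).card = 1).card : ℕ) : ℤ) ≤ (P.card : ℤ) := by
    exact_mod_cast hPc
  have o2' := o2.trans hPc'
  have c1 : (S.card : ℤ) = (nbr U S).card + (m + 1) := by exact_mod_cast hSt
  have c2 : (T.card : ℤ) = (nbr (tr U) T).card + (m + 1) := by exact_mod_cast hTt
  have c3 : (S'.card : ℤ) + Bs.card = S.card := by exact_mod_cast hSc
  have c4 : (T'.card : ℤ) + Bt.card = T.card := by exact_mod_cast hTc
  refine ⟨by omega, ?_⟩
  have key := har ((n : ℤ) - x) (2 * x - n) (m + 1) ((S.card : ℤ) - (m + 1) - (n - x))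
    ((T.card : ℤ) - (m + 1) - (n - x)) S.card T.card Bs.card Bt.card P.card
    (by omega) (by omega) (by omega) (by omega) (by ring) (by ring) (by omega) (by omega)
    (by positivity) (by positivity)
    (by push_cast at b1; linarith) (by push_cast at b2; linarith)
    (by
      refine le_trans (le_of_eq ?_) o1
      have e1 : (S.card : ℤ) - Bs.card = S'.card := by linarith
      have e2 : (T.card : ℤ) - Bt.card = T'.card := by linarith
      rw [e1, e2]
      congr 1
      linarith)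
    (by
      refine le_trans (le_of_eq ?_) o2'
      have e1 : (S.card : ℤ) - Bs.card = S'.card := by linarith
      have e2 : (T.card : ℤ) - Bt.card = T'.card := by linarith
      rw [e1, e2]
      congr 1
      linarith)
  refine le_trans (le_of_eq ?_) key
  ring

open Classical in
theorem aug (hh : S_HALLD) (ht : S_TIGHT) (ha : S_ADD) (hf : FORCE2) (_hd : S_DEL) (hn : S_NONROB)
    (ho : S_ONCE) (har : S_ARITH) : S_AUG4 := by
  intro n m x ι _ _ f A y hx hxn h5 hfA hrA hcA _ hU hZ hsum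
  obtain ⟨M, hMU, hM, hMc⟩ := (hh n (m + 1) (unc f)).1 hU
  obtain ⟨⟨S, hS⟩, hUt, T, hT⟩ := ht n (m + 1) (unc f) hU hZ
  obtain ⟨hSx, hmany⟩ := many ha hn ho har n m x ι f hx hxn h5 M S T hU hMU hM hMc hS hUt hT
  set U := unc f with hUdef
  set S' := S.filter (Rob U M (m + 1)) with hS'
  set T' := T.filter (Rob (tr U) (tr M) (m + 1)) with hT'
  set P := (S' ×ˢ T').filter fun p => (Finset.univ.filter fun u => f u p.1 = p.2).card = 1 with hP
  -- one permutation with many of the cells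
  have hPs : P.card = ∑ u, (P.filter fun p => f u p.1 = p.2).card := by
    have h1 : ∀ p ∈ P, (Finset.univ.filter fun u => f u p.1 = p.2).card = 1 := fun p hp =>
      (Finset.mem_filter.1 hp).2
    calc P.card = ∑ p ∈ P, 1 := by simp
      _ = ∑ p ∈ P, (Finset.univ.filter fun u => f u p.1 = p.2).card :=
          Finset.sum_congr rfl fun p hp => (h1 p hp).symm
      _ = ∑ p ∈ P, ∑ u, if f u p.1 = p.2 then 1 else 0 :=
          Finset.sum_congr rfl fun p _ => by rw [Finset.card_filter]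
      _ = ∑ u, ∑ p ∈ P, if f u p.1 = p.2 then 1 else 0 := Finset.sum_comm
      _ = ∑ u, (P.filter fun p => f u p.1 = p.2).card :=
          Finset.sum_congr rfl fun u _ => by rw [Finset.card_filter]
  have hlt : ∑ u, min x (2 * y u - n) < ∑ u, (P.filter fun p => f u p.1 = p.2).card := by
    rw [← hPs]
    have h1 := hsum.trans_le hmany
    have h2 : (2 * (∑ u, (min x (2 * y u - n) : ℕ) : ℕ) : ℤ) < 2 * (P.card : ℤ) := h1
    have h3 : ((∑ u, (min x (2 * y u - n) : ℕ) : ℕ) : ℤ) < (P.card : ℤ) := by linarith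
    exact_mod_cast h3
  obtain ⟨u, -, hu⟩ := Finset.exists_lt_of_sum_lt hlt
  set Pu := P.filter fun p => f u p.1 = p.2 with hPu
  have hinj : Set.InjOn Prod.fst (Pu : Set (Cell n)) := by
    intro p hp q hq hpq
    have h1 := (Finset.mem_filter.1 (Finset.mem_coe.1 hp)).2
    have h2 := (Finset.mem_filter.1 (Finset.mem_coe.1 hq)).2
    refine Prod.ext hpq ?_
    rw [← h1, ← h2, hpq]
  set Φ := Pu.image Prod.fst with hΦ
  have hΦc : Φ.card = Pu.card := Finset.card_image_of_injOn hinj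
  have hΦS : Φ ⊆ S := by
    intro s hs
    obtain ⟨p, hp, rfl⟩ := Finset.mem_image.1 hs
    have h1 := (Finset.mem_filter.1 (Finset.mem_filter.1 hp).1).1
    exact (Finset.mem_filter.1 (Finset.mem_product.1 h1).1).1
  have hΦx : Φ.card ≤ x := (Finset.card_le_card hΦS).trans hSx
  rw [← hΦc] at hu
  have hu2 : 2 * y u - n < Φ.card := by
    rcases le_total x (2 * y u - n) with h | h
    · rw [min_eq_left h] at hu; omega
    · rw [min_eq_right h] at hu; exact hu
  have hΦne : Φ.Nonempty := Finset.card_pos.1 (by omega)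
  -- not all rows are forced
  have hdisj : ∀ p ∈ gr (f u), p ∉ M := by
    intro p hp hpM
    exact mem_unc.1 (hMU hpM) u (mem_gr.1 hp)
  have hnf : ∃ s ∈ Φ, ∃ g : Equiv.Perm (Fin n), gr g ⊆ A u \ M ∧ g s ≠ f u s := by
    by_contra hcon
    push Not at hcon
    have h1 := hf n (n - y u) (A u \ M) (f u) (by omega)
      (fun p hp => Finset.mem_sdiff.2 ⟨hfA u hp, hdisj p hp⟩)
      (rowGe_sdiff (hrA u) hM) (colGe_sdiff (hcA u) hM) Φ hΦne
      (fun s hs g hg => hcon s hs g hg)
    omega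
  obtain ⟨s, hs, g, hg, hgs⟩ := hnf
  refine ⟨u, g, fun p hp => (Finset.mem_sdiff.1 (hg hp)).1, ?_⟩
  obtain ⟨p, hp, rfl⟩ := Finset.mem_image.1 hs
  have hp2 : f u p.1 = p.2 := (Finset.mem_filter.1 hp).2
  have hpP := (Finset.mem_filter.1 hp).1
  have hp1 := (Finset.mem_filter.1 hpP).1
  have hp3 : (Finset.univ.filter fun u => f u p.1 = p.2).card = 1 := (Finset.mem_filter.1 hpP).2
  have hpS : Rob U M (m + 1) p.1 := (Finset.mem_filter.1 (Finset.mem_product.1 hp1).1).2
  have hpT : Rob (tr U) (tr M) (m + 1) p.2 := (Finset.mem_filter.1 (Finset.mem_product.1 hp1).2).2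
  have honly : ∀ v, f v p.1 = p.2 → v = u := by
    intro v hv
    rw [Finset.card_eq_one] at hp3
    obtain ⟨w, hw⟩ := hp3
    have h1 : v ∈ (Finset.univ.filter fun u => f u p.1 = p.2) := by simp [hv]
    have h2 : u ∈ (Finset.univ.filter fun u => f u p.1 = p.2) := by simp [hp2]
    rw [hw, Finset.mem_singleton] at h1 h2
    rw [h1, h2]
  have hgM : Disjoint (gr g) M := by
    rw [Finset.disjoint_left]
    intro q hq
    exact (Finset.mem_sdiff.1 (hg hq)).2
  have hMV : M ⊆ U \ gr g := fun q hq =>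
    Finset.mem_sdiff.2 ⟨hMU hq, fun h => (Finset.disjoint_left.1 hgM h) hq⟩
  have hV : DefLe (U \ gr g) (m + 1) := (hh n (m + 1) (U \ gr g)).2.1 M hMV hM hMc
  have hVt : ∃ Z, Tight (U \ gr g) (m + 1) Z := by
    refine ⟨S, ?_⟩
    have h1 : S.card = (nbr U S).card + (m + 1) := hS.1
    have h2 := Finset.card_le_card (nbr_mono (Finset.sdiff_subset : U \ gr g ⊆ U) S)
    have h3 := hV S
    unfold Tight
    omega
  obtain ⟨⟨S2, hS2⟩, -, T2, hT2⟩ := ht n (m + 1) (U \ gr g) hV hVt
  have hs2 : p.1 ∈ S2 := hpS g hgM S2 hS2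
  have hc2 : p.2 ∈ T2 := by
    refine hpT g⁻¹ ?_ T2 ?_
    · rw [← tr_gr, Finset.disjoint_left]
      intro q hq hq'
      exact Finset.disjoint_left.1 hgM (mem_tr'.1 hq) (mem_tr'.1 hq')
    · rw [← tr_gr, ← tr_sdiff]
      exact hT2
  have hfin := ha n m (U \ gr g) S2 T2 p.1 p.2 hV hS2 hT2 hs2 hc2
  refine defLe_mono ?_ hfin
  intro q hq
  rw [mem_unc]
  intro v
  rcases Finset.mem_insert.1 hq with h | h
  · subst h
    by_cases hvu : v = u
    · subst hvu
      rw [Function.update_self]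
      intro hcon
      apply hgs
      rw [hp2]
      exact hcon
    · rw [Function.update_of_ne hvu]
      exact fun hcon => hvu (honly v hcon)
  · rw [Finset.mem_sdiff] at h
    by_cases hvu : v = u
    · subst hvu
      rw [Function.update_self]
      exact fun hcon => h.2 (mem_gr.2 hcon)
    · rw [Function.update_of_ne hvu]
      exact mem_unc.1 h.1 v

end Pool.Agent.H102.AUG
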